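import Mathlib

/-!
# The Bergman kernel has a minimum certificate over the disc of radius `1/√2`

The minimum certificate is `s₀(z,w) = (1 - 2 z w̄)⁻¹`. For a certificate `t` for `b`, normalised at
`0`, one has `1 - h = b (1 - F)` with kernels `h`, `F`. Averaging the feature vectors of `F` and `h`
over the `N`-th roots of unity on a circle of radius `r < 1/√2` and letting `N → ∞`, `r → 1/√2`, a
duality argument shows that `F` has only two modes in the limit. This gives a function `ψ` such that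
`ψ(z) conj(ψ(w)) (1 - 2 z w̄) - (1 - F(z,w))` is a kernel, and then `t / s₀` is a kernel by the Schur
product theorem. No regularity of `F`, `h` is assumed.
-/

open Complex ComplexConjugate ComplexOrder Matrix Filter Topology Finset

namespace Pool.Agent.Results.MP_232e98_an.MinimumCertificate

/-- A kernel on `X`: a positive semidefinite function. (`0 ≤` for a complex number means that it is
real and nonnegative.) -/
def IsKernel {X : Type} (K : X → X → ℂ) : Prop :=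
  ∀ (n : ℕ) (x : Fin n → X) (c : Fin n → ℂ), 0 ≤ ∑ i, ∑ j, c i * conj (c j) * K (x i) (x j)

/-- `s` is a complete Pick kernel on `X`: it is a kernel without zeros and
`s(z,w) = δ(z) conj(δ(w)) / (1 - F(z,w))` with `δ` nowhere zero, `F` a kernel and `F(x,x) < 1`. -/
def IsCP {X : Type} (s : X → X → ℂ) : Prop :=
  IsKernel s ∧ (∀ z w, s z w ≠ 0) ∧ ∃ (δ : X → ℂ) (F : X → X → ℂ), (∀ z, δ z ≠ 0) ∧ IsKernel F ∧
    (∀ x, (F x x).re < 1) ∧ ∀ z w, s z w = δ z * conj (δ w) / (1 - F z w)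

/-- The complete Pick kernel `s` is a certificate for `k`: `k = (1 - h) s` for some kernel `h`. -/
def IsCertificate {X : Type} (k s : X → X → ℂ) : Prop :=
  IsCP s ∧ ∃ h : X → X → ℂ, IsKernel h ∧ ∀ z w, k z w = (1 - h z w) * s z w

/-- `s` is a minimum certificate for `k`: a certificate such that `t / s` is a kernel for every
certificate `t` for `k`. -/
def IsMinCertificate {X : Type} (k s : X → X → ℂ) : Prop :=
  IsCertificate k s ∧ ∀ t, IsCertificate k t → IsKernel (fun z w => t z w / s z w)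

/-- The open disc of radius `1/√2`. -/
abbrev Disc : Type := {z : ℂ // ‖z‖ < 1 / Real.sqrt 2}

/-- The Bergman kernel `(1 - z w̄)⁻²` restricted to the disc of radius `1/√2`. -/
noncomputable def bergman (z w : Disc) : ℂ := 1 / (1 - (z : ℂ) * conj (w : ℂ)) ^ 2

variable {X : Type}

lemma IsKernel.herm {K : X → X → ℂ} (hK : IsKernel K) (z w : X) : conj (K z w) = K w z := by
  have h1 := hK 1 (fun _ => z) (fun _ => 1)
  have h2 := hK 1 (fun _ => w) (fun _ => 1)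
  have h3 := hK 2 ![z, w] ![1, 1]
  have h4 := hK 2 ![z, w] ![1, I]
  simp [Fin.sum_univ_two] at h1 h2 h3 h4
  rw [Complex.le_def] at h1 h2 h3 h4
  simp at h1 h2 h3 h4
  apply Complex.ext
  · simp
    linarith [h1.2, h2.2, h3.2, h4.2]
  · simp
    linarith [h1.2, h2.2, h3.2, h4.2]

lemma IsKernel.finset {K : X → X → ℂ} (hK : IsKernel K) (S : Finset X) (c : X → ℂ) :
    0 ≤ ∑ x ∈ S, ∑ y ∈ S, c x * conj (c y) * K x y := by
  classical
  have h := hK S.card (fun i => ((S.equivFin.symm i : S) : X)) (fun i => c (S.equivFin.symm i : S))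
  have e : ∀ g : X → ℂ, ∑ x ∈ S, g x = ∑ i : Fin S.card, g ((S.equivFin.symm i : S) : X) := by
    intro g
    rw [← Finset.sum_coe_sort S g]
    exact (Equiv.sum_comp S.equivFin.symm (fun s : S => g s)).symm
  rw [e]
  simp_rw [e]
  exact h

lemma isKernel_iff {K : X → X → ℂ} : IsKernel K ↔ (Matrix.of K).PosSemidef := by
  classical
  constructor
  · intro hK
    refine ⟨?_, ?_⟩
    · ext z w
      simp [Matrix.conjTranspose_apply]
      exact hK.herm w z
    · intro x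
      have := hK.finset x.support (fun i => conj (x i))
      simp only [Finsupp.sum, Matrix.of_apply]
      convert! this using 3
      simp
      ring
  · intro h n x c
    have h1 := (h.submatrix x).dotProduct_mulVec_nonneg (fun i => conj (c i))
    simp only [dotProduct, mulVec, Finset.mul_sum] at h1
    convert! h1 using 3
    simp
    ring

lemma IsKernel.feature {K : X → X → ℂ} (hK : IsKernel K) :
    ∃ (H : Type) (_ : NormedAddCommGroup H) (_ : InnerProductSpace ℂ H) (f : X → H),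
      ∀ z w, K z w = inner ℂ (f z) (f w) := by
  classical
  let K' : Matrix X X (ℂ →L[ℂ] ℂ) := Matrix.of fun z w => K z w • ContinuousLinearMap.id ℂ ℂ
  have hherm : K'.IsHermitian := by
    ext z w
    simp only [K', Matrix.conjTranspose_apply, Matrix.of_apply, star_smul]
    have : star (ContinuousLinearMap.id ℂ ℂ) = ContinuousLinearMap.id ℂ ℂ := by
      exact star_one _
    rw [this]
    simp
    exact hK.herm w z
  have hK' : K'.PosSemidef := by
    have hiff := (RKHS.posSemidef_tfae (K := K')).out 0 2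
    rw [hiff]
    refine ⟨hherm, ?_⟩
    intro vv
    have h1 := hK.finset vv.support (fun i => conj (vv i))
    simp only [K', Matrix.of_apply, Finsupp.sum]
    have h2 : ∑ x ∈ vv.support, ∑ x' ∈ vv.support, inner ℂ ((K x' x • ContinuousLinearMap.id ℂ ℂ) (vv x)) (vv x')
        = ∑ x ∈ vv.support, ∑ y ∈ vv.support, conj (vv x) * conj (conj (vv y)) * K x y := by
      apply Finset.sum_congr rfl; intro x _
      apply Finset.sum_congr rfl; intro y _
      simp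
      rw [hK.herm y x]
      ring
    rw [h2]
    exact (Complex.le_def.mp h1).1
  have : Fact K'.PosSemidef := ⟨hK'⟩
  refine ⟨RKHS.OfKernel K', inferInstance, inferInstance, fun x => RKHS.kerFun (RKHS.OfKernel K') x 1, ?_⟩
  intro z w
  have h1 := RKHS.kernel_inner (H := RKHS.OfKernel K') w z (1 : ℂ) (1 : ℂ)
  rw [RKHS.OfKernel.kernel_ofKernel] at h1
  simp only [K', Matrix.of_apply] at h1
  rw [← h1]
  simp
  rw [hK.herm w z]

lemma isKernel_of_feature {H : Type} [NormedAddCommGroup H] [InnerProductSpace ℂ H] (f : X → H) :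
    IsKernel (fun z w => inner ℂ (f z) (f w)) := by
  intro n x c
  have h1 : ∑ i, ∑ j, c i * conj (c j) * inner ℂ (f (x i)) (f (x j))
      = inner ℂ (∑ i, conj (c i) • f (x i)) (∑ j, conj (c j) • f (x j)) := by
    rw [sum_inner]
    apply Finset.sum_congr rfl; intro i _
    rw [inner_smul_left, inner_sum, Finset.mul_sum]
    apply Finset.sum_congr rfl; intro j _
    rw [inner_smul_right]
    simp
    ring
  rw [h1, inner_self_eq_norm_sq_to_K]
  norm_cast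
  positivity

lemma IsKernel.congr {K L : X → X → ℂ} (hK : IsKernel K) (h : ∀ z w, K z w = L z w) : IsKernel L := by
  have : K = L := by funext z w; exact h z w
  rw [← this]; exact hK

lemma IsKernel.add {K L : X → X → ℂ} (hK : IsKernel K) (hL : IsKernel L) :
    IsKernel (fun z w => K z w + L z w) := by
  rw [isKernel_iff] at *
  exact (hK.add hL)

lemma IsKernel.mul {K L : X → X → ℂ} (hK : IsKernel K) (hL : IsKernel L) :
    IsKernel (fun z w => K z w * L z w) := by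
  rw [isKernel_iff] at *
  exact (hK.hadamard hL)

lemma isKernel_dyad (u : X → ℂ) : IsKernel (fun z w => u z * conj (u w)) := by
  refine (isKernel_of_feature (fun z => conj (u z))).congr ?_
  intro z w
  simp [mul_comm]

lemma isKernel_const (r : ℝ) (hr : 0 ≤ r) : IsKernel (fun _ _ : X => (r : ℂ)) := by
  refine (isKernel_dyad (fun _ : X => ((Real.sqrt r : ℝ) : ℂ))).congr ?_
  intro z w
  rw [Complex.conj_ofReal]
  norm_cast
  exact Real.mul_self_sqrt hr

lemma IsKernel.pow {K : X → X → ℂ} (hK : IsKernel K) (n : ℕ) : IsKernel (fun z w => K z w ^ n) := by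
  induction n with
  | zero => simpa using isKernel_const (X := X) 1 (by norm_num)
  | succ n ih =>
    refine (ih.mul hK).congr ?_
    intro z w; rw [pow_succ]

lemma IsKernel.lim {K : ℕ → X → X → ℂ} {L : X → X → ℂ} (hK : ∀ n, IsKernel (K n))
    (h : ∀ z w, Tendsto (fun n => K n z w) atTop (𝓝 (L z w))) : IsKernel L := by
  intro n x c
  have h1 : Tendsto (fun m => ∑ i, ∑ j, c i * conj (c j) * K m (x i) (x j)) atTop
      (𝓝 (∑ i, ∑ j, c i * conj (c j) * L (x i) (x j))) := by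
    apply tendsto_finsetSum; intro i _
    apply tendsto_finsetSum; intro j _
    exact (h _ _).const_mul _
  exact ge_of_tendsto' h1 (fun m => hK m n x c)

lemma IsKernel.sum {K : ℕ → X → X → ℂ} (hK : ∀ n, IsKernel (K n)) (N : ℕ) :
    IsKernel (fun z w => ∑ n ∈ range N, K n z w) := by
  induction N with
  | zero => simpa using isKernel_const (X := X) 0 (by norm_num)
  | succ N ih =>
    refine (ih.add (hK N)).congr ?_
    intro z w; rw [sum_range_succ]

lemma IsKernel.diag {K : X → X → ℂ} (hK : IsKernel K) (z : X) : 0 ≤ (K z z).re ∧ (K z z).im = 0 := by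
  have h := hK 1 (fun _ => z) (fun _ => 1)
  simp at h
  rw [Complex.le_def] at h
  simp at h
  exact ⟨h.1, h.2.symm⟩

lemma IsKernel.norm_sq_le {K : X → X → ℂ} (hK : IsKernel K) (z w : X) :
    ‖K z w‖ ^ 2 ≤ (K z z).re * (K w w).re := by
  obtain ⟨H, _, _, f, hf⟩ := hK.feature
  have h1 : ‖K z w‖ ≤ ‖f z‖ * ‖f w‖ := by rw [hf]; exact norm_inner_le_norm _ _
  have h2 : ∀ z, (K z z).re = ‖f z‖ ^ 2 := by
    intro z; rw [hf, inner_self_eq_norm_sq_to_K]; norm_cast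
  rw [h2, h2, ← mul_pow]
  exact pow_le_pow_left₀ (norm_nonneg _) h1 2

lemma IsKernel.norm_lt_one {K : X → X → ℂ} (hK : IsKernel K) (h1 : ∀ z, (K z z).re < 1) (z w : X) :
    ‖K z w‖ < 1 := by
  have h2 := hK.norm_sq_le z w
  have h3 := (hK.diag z).1
  have h4 := (hK.diag w).1
  have h5 : (K z z).re * (K w w).re < 1 := by nlinarith [h1 z, h1 w]
  have h6 : ‖K z w‖ ^ 2 < 1 := lt_of_le_of_lt h2 h5
  nlinarith [norm_nonneg (K z w)]

lemma IsKernel.geom {K : X → X → ℂ} (hK : IsKernel K) (h1 : ∀ z, (K z z).re < 1) :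
    IsKernel (fun z w => 1 / (1 - K z w)) := by
  apply IsKernel.lim (K := fun n z w => ∑ i ∈ range n, K z w ^ i)
  · intro n
    exact IsKernel.sum (fun i => hK.pow i) n
  · intro z w
    have h2 := hasSum_geometric_of_norm_lt_one (hK.norm_lt_one h1 z w)
    rw [one_div]
    exact h2.tendsto_sum_nat

lemma IsKernel.one_sub_ne {K : X → X → ℂ} (hK : IsKernel K) (h1 : ∀ z, (K z z).re < 1) (z w : X) :
    1 - K z w ≠ 0 := by
  intro h
  have h2 := hK.norm_lt_one h1 z w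
  have : K z w = 1 := by linear_combination -h
  rw [this] at h2
  simp at h2

/-- normalisation of a kernel at a base point -/
noncomputable def nrm (K : X → X → ℂ) (o : X) (z w : X) : ℂ :=
  1 - (1 - K z w) * (1 - K o o) / ((1 - K z o) * (1 - K o w))

lemma nrm_kernel {K : X → X → ℂ} (hK : IsKernel K) (h1 : ∀ z, (K z z).re < 1) (o : X) :
    IsKernel (nrm K o) := by
  obtain ⟨H, _, _, f, hf⟩ := hK.feature
  have hG := isKernel_of_feature (fun z => f z - f o)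
  have hr : K o o = (((K o o).re : ℝ) : ℂ) := by
    apply Complex.ext <;> simp [(hK.diag o).2]
  have hc := isKernel_const (X := X) (1 - (K o o).re) (by linarith [h1 o])
  have hd := isKernel_dyad (fun z => K z o - K o o)
  have h2 := isKernel_dyad (fun z => 1 / (1 - K z o))
  have h3 := ((hc.mul hG).add hd).mul h2
  refine h3.congr ?_
  intro z w
  have e1 := hK.one_sub_ne h1 z o
  have e2 := hK.one_sub_ne h1 o w
  have c1 : conj (K w o) = K o w := hK.herm w o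
  have c2 : conj (K o o) = K o o := hK.herm o o
  simp only [inner_sub_left, inner_sub_right, ← hf, map_div₀, map_sub, map_one, c1, c2]
  push_cast
  rw [← hr]
  unfold nrm
  field_simp
  ring

lemma nrm_diag {K : X → X → ℂ} (hK : IsKernel K) (h1 : ∀ z, (K z z).re < 1) (o z : X) :
    (nrm K o z z).re < 1 := by
  have e1 := hK.one_sub_ne h1 z o
  have e2 := hK.one_sub_ne h1 o z
  have c1 : K o z = conj (K z o) := (hK.herm z o).symm
  have hr : ∀ o, K o o = (((K o o).re : ℝ) : ℂ) := by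
    intro o
    apply Complex.ext <;> simp [(hK.diag o).2]
  have h2 : nrm K o z z = ((1 - (1 - (K z z).re) * (1 - (K o o).re) / (‖1 - K z o‖ ^ 2) : ℝ) : ℂ) := by
    unfold nrm
    have h3 : (1 - K z o) * (1 - K o z) = ((‖1 - K z o‖ ^ 2 : ℝ) : ℂ) := by
      rw [c1]
      have : (1 - conj (K z o)) = conj (1 - K z o) := by simp
      rw [this, Complex.mul_conj, Complex.normSq_eq_norm_sq]
    rw [h3, hr z, hr o]
    push_cast
    simp
  rw [h2, Complex.ofReal_re]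
  have h4 : 0 < ‖1 - K z o‖ ^ 2 := by
    have := norm_pos_iff.mpr e1
    positivity
  have h5 : 0 < (1 - (K z z).re) * (1 - (K o o).re) / (‖1 - K z o‖ ^ 2) := by
    apply div_pos _ h4
    apply mul_pos <;> linarith [h1 z, h1 o]
  linarith

section modes
variable {M : ℕ}

lemma chi_norm (a : ZMod (M + 8)) : ‖(ZMod.stdAddChar (N := M + 8)) a‖ = 1 := by
  rw [ZMod.stdAddChar_apply]; exact Circle.norm_coe _

lemma chi_conj (a : ZMod (M + 8)) : conj ((ZMod.stdAddChar (N := M + 8)) a) = (ZMod.stdAddChar (N := M + 8)) (-a) := by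
  rw [AddChar.map_neg_eq_inv, Complex.inv_eq_conj (chi_norm a)]

/-- Kronecker delta at 0 -/
noncomputable def dl (m : ZMod (M + 8)) : ℝ := if m = 0 then 1 else 0

lemma sum_chi (m : ZMod (M + 8)) : ∑ k, (ZMod.stdAddChar (N := M + 8)) (m * k) = ((M + 8 : ℕ) : ℂ) * (dl m : ℂ) := by
  have h := AddChar.sum_mulShift m (ZMod.isPrimitive_stdAddChar (M + 8))
  have h2 : ∑ k, (ZMod.stdAddChar (N := M + 8)) (m * k) = ∑ k, (ZMod.stdAddChar (N := M + 8)) (k * m) := by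
    apply Finset.sum_congr rfl; intro k _; rw [mul_comm]
  rw [h2, h]
  unfold dl
  split_ifs <;> simp [ZMod.card]

/-- the modes of a finite family -/
noncomputable def md {H : Type} [NormedAddCommGroup H] [InnerProductSpace ℂ H]
    (f : ZMod (M + 8) → H) (m : ZMod (M + 8)) : H :=
  (((M + 8 : ℕ) : ℂ)⁻¹) • ∑ k, (ZMod.stdAddChar (N := M + 8)) (m * k) • f k

noncomputable def Lam (m m' : ZMod (M + 8)) (K : ZMod (M + 8) → ZMod (M + 8) → ℂ) : ℂ :=
  (((M + 8 : ℕ) : ℂ)⁻¹) * (((M + 8 : ℕ) : ℂ)⁻¹) * ∑ k, ∑ l, (ZMod.stdAddChar (N := M + 8)) (-(m * k)) * (ZMod.stdAddChar (N := M + 8)) (m' * l) * K k l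

lemma inner_md {H : Type} [NormedAddCommGroup H] [InnerProductSpace ℂ H]
    (f : ZMod (M + 8) → H) (m m' : ZMod (M + 8)) :
    inner ℂ (md f m) (md f m') = Lam m m' (fun k l => inner ℂ (f k) (f l)) := by
  unfold md Lam
  rw [inner_smul_left, inner_smul_right, map_inv₀, Complex.conj_natCast, mul_assoc]
  congr 2
  rw [sum_inner]
  apply Finset.sum_congr rfl; intro k _
  rw [inner_smul_left, inner_sum, Finset.mul_sum, chi_conj]
  apply Finset.sum_congr rfl; intro l _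
  rw [inner_smul_right]
  ring

lemma Lam_add (m m' : ZMod (M + 8)) (K L : ZMod (M + 8) → ZMod (M + 8) → ℂ) :
    Lam m m' (fun k l => K k l + L k l) = Lam m m' K + Lam m m' L := by
  unfold Lam
  rw [← mul_add, ← Finset.sum_add_distrib]
  congr 1
  apply Finset.sum_congr rfl; intro k _
  rw [← Finset.sum_add_distrib]
  apply Finset.sum_congr rfl; intro l _
  ring

lemma Lam_smul (m m' : ZMod (M + 8)) (c : ℂ) (K : ZMod (M + 8) → ZMod (M + 8) → ℂ) :
    Lam m m' (fun k l => c * K k l) = c * Lam m m' K := by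
  unfold Lam
  have h : ∑ k, ∑ l, (ZMod.stdAddChar (N := M + 8)) (-(m * k)) * (ZMod.stdAddChar (N := M + 8)) (m' * l) * (c * K k l)
      = c * ∑ k, ∑ l, (ZMod.stdAddChar (N := M + 8)) (-(m * k)) * (ZMod.stdAddChar (N := M + 8)) (m' * l) * K k l := by
    rw [Finset.mul_sum]
    apply Finset.sum_congr rfl; intro k _
    rw [Finset.mul_sum]
    apply Finset.sum_congr rfl; intro l _
    ring
  rw [h]; ring

lemma Lam_shift (m m' : ZMod (M + 8)) (K : ZMod (M + 8) → ZMod (M + 8) → ℂ) :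
    Lam m m' (fun k l => (ZMod.stdAddChar (N := M + 8)) (k - l) * K k l) = Lam (m - 1) (m' - 1) K := by
  unfold Lam
  congr 1
  apply Finset.sum_congr rfl; intro k _
  apply Finset.sum_congr rfl; intro l _
  have h1 : (ZMod.stdAddChar (N := M + 8)) (-(m * k)) * (ZMod.stdAddChar (N := M + 8)) (m' * l) * (ZMod.stdAddChar (N := M + 8)) (k - l) = (ZMod.stdAddChar (N := M + 8)) (-((m - 1) * k)) * (ZMod.stdAddChar (N := M + 8)) ((m' - 1) * l) := by
    rw [← AddChar.map_add_eq_mul, ← AddChar.map_add_eq_mul, ← AddChar.map_add_eq_mul]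
    congr 1
    ring
  rw [← h1]
  ring

lemma Lam_one (m m' : ZMod (M + 8)) : Lam m m' (fun _ _ => 1) = (dl m : ℂ) * (dl m' : ℂ) := by
  unfold Lam
  have h1 : ∑ k, ∑ l, (ZMod.stdAddChar (N := M + 8)) (-(m * k)) * (ZMod.stdAddChar (N := M + 8)) (m' * l) * (1 : ℂ) = (∑ k, (ZMod.stdAddChar (N := M + 8)) (-m * k)) * (∑ l, (ZMod.stdAddChar (N := M + 8)) (m' * l)) := by
    rw [Finset.sum_mul_sum]
    apply Finset.sum_congr rfl; intro k _
    apply Finset.sum_congr rfl; intro l _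
    rw [mul_one]; congr 2; ring
  rw [h1, sum_chi, sum_chi]
  have h2 : (dl (-m) : ℝ) = dl m := by unfold dl; simp
  have h3 : (((M + 8 : ℕ) : ℂ)) ≠ 0 := by exact_mod_cast (by omega : M + 8 ≠ 0)
  rw [h2]
  field_simp

lemma relation {H H' : Type} [NormedAddCommGroup H] [InnerProductSpace ℂ H]
    [NormedAddCommGroup H'] [InnerProductSpace ℂ H'] (f : ZMod (M + 8) → H) (g : ZMod (M + 8) → H') (q : ℂ)
    (hfg : ∀ k l, inner ℂ (f k) (f l) = 1 - (1 - q * (ZMod.stdAddChar (N := M + 8)) (k - l)) ^ 2 * (1 - inner ℂ (g k) (g l)))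
    (m m' : ZMod (M + 8)) :
    inner ℂ (md f m) (md f m') = 2 * q * ((dl (m - 1) : ℂ) * (dl (m' - 1) : ℂ))
      - q ^ 2 * ((dl (m - 2) : ℂ) * (dl (m' - 2) : ℂ)) + inner ℂ (md g m) (md g m')
      - 2 * q * inner ℂ (md g (m - 1)) (md g (m' - 1)) + q ^ 2 * inner ℂ (md g (m - 2)) (md g (m' - 2)) := by
  have e2 : ∀ a : ZMod (M + 8), a - 1 - 1 = a - 2 := by intro a; ring
  have h1 : Lam m m' (fun k l => inner ℂ (f k) (f l))
      = Lam m m' (fun k l => (2 * q) * ((ZMod.stdAddChar (N := M + 8)) (k - l) * 1) + ((-q ^ 2) * ((ZMod.stdAddChar (N := M + 8)) (k - l) * ((ZMod.stdAddChar (N := M + 8)) (k - l) * 1))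
        + (inner ℂ (g k) (g l) + ((-2 * q) * ((ZMod.stdAddChar (N := M + 8)) (k - l) * inner ℂ (g k) (g l))
          + q ^ 2 * ((ZMod.stdAddChar (N := M + 8)) (k - l) * ((ZMod.stdAddChar (N := M + 8)) (k - l) * inner ℂ (g k) (g l))))))) := by
    congr 1
    funext k l
    rw [hfg]; ring
  rw [inner_md, h1, Lam_add, Lam_add, Lam_add, Lam_add, Lam_smul, Lam_smul, Lam_smul, Lam_smul,
    Lam_shift, Lam_shift, Lam_shift, Lam_shift, Lam_shift, Lam_shift, Lam_one, Lam_one, inner_md, inner_md, inner_md,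
    e2, e2]
  ring

lemma parseval {H : Type} [NormedAddCommGroup H] [InnerProductSpace ℂ H] (f : ZMod (M + 8) → H)
    (hf : ∀ k, ‖f k‖ ≤ 1) : ∑ m, ‖md f m‖ ^ 2 ≤ 1 := by
  have hN : (((M + 8 : ℕ) : ℂ)) ≠ 0 := by exact_mod_cast (by omega : M + 8 ≠ 0)
  have h1 : ((∑ m, ‖md f m‖ ^ 2 : ℝ) : ℂ) = (((M + 8 : ℕ) : ℂ)⁻¹) * ∑ k, inner ℂ (f k) (f k) := by
    have h2 : ∀ m, ((‖md f m‖ ^ 2 : ℝ) : ℂ) = Lam m m (fun k l => inner ℂ (f k) (f l)) := by
      intro m
      rw [← inner_md, inner_self_eq_norm_sq_to_K]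
      push_cast; rfl
    push_cast
    have h2' : ∀ m ∈ (Finset.univ : Finset (ZMod (M + 8))), ((‖md f m‖ : ℝ) : ℂ) ^ 2 = Lam m m (fun k l => inner ℂ (f k) (f l)) := by
      intro m _
      rw [← h2 m]; push_cast; rfl
    rw [Finset.sum_congr rfl h2']
    unfold Lam
    rw [← Finset.mul_sum, Finset.sum_comm]
    have h3 : ∀ k ∈ (Finset.univ : Finset (ZMod (M + 8))), ∑ m, ∑ l, (ZMod.stdAddChar (N := M + 8)) (-(m * k)) * (ZMod.stdAddChar (N := M + 8)) (m * l) * inner ℂ (f k) (f l)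
        = ((M + 8 : ℕ) : ℂ) * inner ℂ (f k) (f k) := by
      intro k _
      rw [Finset.sum_comm]
      have h4 : ∀ l ∈ (Finset.univ : Finset (ZMod (M + 8))), ∑ m, (ZMod.stdAddChar (N := M + 8)) (-(m * k)) * (ZMod.stdAddChar (N := M + 8)) (m * l) * inner ℂ (f k) (f l)
          = ((M + 8 : ℕ) : ℂ) * (dl (l - k) : ℂ) * inner ℂ (f k) (f l) := by
        intro l _
        rw [← sum_chi, Finset.sum_mul]
        apply Finset.sum_congr rfl; intro m _
        rw [← AddChar.map_add_eq_mul]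
        congr 2; ring
      rw [Finset.sum_congr rfl h4, Finset.sum_eq_single k]
      · simp [dl]
      · intro l _ hl
        have : dl (l - k) = 0 := by unfold dl; rw [if_neg (sub_ne_zero.mpr hl)]
        rw [this]; simp
      · intro h; simp at h
    rw [Finset.sum_congr rfl h3, ← Finset.mul_sum]
    field_simp
    push_cast
    ring
  have h5 : ((((M + 8 : ℕ) : ℂ)⁻¹) * ∑ k, inner ℂ (f k) (f k)) = (((((M + 8 : ℕ) : ℝ)⁻¹) * ∑ k, ‖f k‖ ^ 2 : ℝ) : ℂ) := by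
    push_cast
    congr 1
    apply Finset.sum_congr rfl; intro k _
    rw [inner_self_eq_norm_sq_to_K]; rfl
  rw [h5] at h1
  have h6 := Complex.ofReal_injective h1
  rw [h6]
  have h7 : ∑ k : ZMod (M + 8), ‖f k‖ ^ 2 ≤ ((M + 8 : ℕ) : ℝ) := by
    calc ∑ k : ZMod (M + 8), ‖f k‖ ^ 2 ≤ ∑ k : ZMod (M + 8), (1 : ℝ) := by
          apply Finset.sum_le_sum; intro k _
          have := hf k
          have h0 := norm_nonneg (f k)
          nlinarith
      _ = _ := by simp [ZMod.card]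
  rw [inv_mul_le_iff₀ (by positivity)]
  simpa using h7

/-- dual weights -/
noncomputable def W (M : ℕ) (j : ℕ) : ℝ := if j = M + 7 then 1 else (7 / 8 : ℝ) ^ j

noncomputable def wt (m : ZMod (M + 8)) : ℝ := W M ((-m).val)

lemma wt_nonneg (m : ZMod (M + 8)) : 0 ≤ wt m := by
  unfold wt W; split_ifs <;> positivity

lemma wt_le_one (m : ZMod (M + 8)) : wt m ≤ 1 := by
  unfold wt W; split_ifs
  · exact le_rfl
  · exact pow_le_one₀ (by norm_num) (by norm_num)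

lemma wt_neg (j : ℕ) (hj : j < M + 7) : wt (-(j : ZMod (M + 8))) = (7 / 8 : ℝ) ^ j := by
  unfold wt W
  rw [neg_neg, ZMod.val_natCast, Nat.mod_eq_of_lt (by omega), if_neg (by omega)]

lemma wt_one : wt (1 : ZMod (M + 8)) = 1 := by
  unfold wt W
  rw [show (-1 : ZMod (M + 8)).val = M + 7 from ZMod.val_neg_one (M + 7)]
  simp

lemma coeff_lower (q : ℝ) (j : ℕ) (hj : j < M + 7) (hj2 : 2 ≤ j) :
    wt (-(j : ZMod (M + 8))) - 2 * q * wt (-(j : ZMod (M + 8)) + 1) + q ^ 2 * wt (-(j : ZMod (M + 8)) + 2)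
      = (7 / 8 : ℝ) ^ (j - 2) * (7 / 8 - q) ^ 2 := by
  have e1 : -(j : ZMod (M + 8)) + 1 = -((j - 1 : ℕ) : ZMod (M + 8)) := by
    rw [Nat.cast_sub (by omega)]; push_cast; ring
  have e2 : -(j : ZMod (M + 8)) + 2 = -((j - 2 : ℕ) : ZMod (M + 8)) := by
    rw [Nat.cast_sub (by omega)]; push_cast; ring
  rw [e1, e2, wt_neg j hj, wt_neg (j - 1) (by omega), wt_neg (j - 2) (by omega)]
  obtain ⟨i, rfl⟩ : ∃ i, j = i + 2 := ⟨j - 2, by omega⟩
  have e3 : i + 2 - 1 = i + 1 := by omega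
  have e4 : i + 2 - 2 = i := by omega
  rw [e3, e4, pow_succ, pow_succ]
  ring

lemma two_eq : (2 : ZMod (M + 8)) = -((M + 6 : ℕ) : ZMod (M + 8)) := by
  have h : ((M + 8 : ℕ) : ZMod (M + 8)) = 0 := ZMod.natCast_self _
  push_cast at h ⊢
  linear_combination h

lemma coeff_nonneg (q : ℝ) (hq0 : 0 < q) (hq : q < 1 / 2) (m : ZMod (M + 8)) :
    0 ≤ wt m - 2 * q * wt (m + 1) + q ^ 2 * wt (m + 2) := by
  obtain ⟨j, hj, hm⟩ : ∃ j : ℕ, j < M + 8 ∧ m = -(j : ZMod (M + 8)) :=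
    ⟨(-m).val, ZMod.val_lt _, by rw [ZMod.natCast_zmod_val]; ring⟩
  have hw2 := wt_nonneg (m + 2)
  have hw1 := wt_le_one (m + 1)
  rcases Nat.lt_or_ge j 2 with h2 | h2
  · interval_cases j
    · have h0 : m = 0 := by rw [hm]; simp
      have : wt m = 1 := by
        have := wt_neg (M := M) 0 (by omega)
        rw [hm]; simpa using this
      rw [this]
      nlinarith [mul_nonneg (sq_nonneg q) hw2]
    · have e1 : m + 1 = 0 := by rw [hm]; push_cast; ring
      have e2 : m + 2 = 1 := by rw [hm]; push_cast; ring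
      have w0 : wt m = 7 / 8 := by
        have := wt_neg (M := M) 1 (by omega)
        rw [hm]; simpa using this
      rw [e2, wt_one, w0]
      nlinarith
  · rcases Nat.lt_or_ge j (M + 7) with h3 | h3
    · rw [hm, coeff_lower q j h3 h2]
      positivity
    · have hj' : j = M + 7 := by omega
      have e0 : m = 1 := by
        rw [hm, hj']
        have h : ((M + 8 : ℕ) : ZMod (M + 8)) = 0 := ZMod.natCast_self _
        push_cast at h ⊢
        linear_combination -h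
      rw [e0] at hw1 hw2 ⊢
      rw [wt_one]
      nlinarith [mul_nonneg (sq_nonneg q) hw2]

lemma dual (a b : ZMod (M + 8) → ℝ) (q : ℝ) (hq0 : 0 < q) (hq : q < 1 / 2) (hb : ∀ m, 0 ≤ b m)
    (ha : ∀ m, 0 ≤ a m) (hsum : ∑ m, a m ≤ 1)
    (hrel : ∀ m, a m = 2 * q * dl (m - 1) - q ^ 2 * dl (m - 2) + b m - 2 * q * b (m - 1) + q ^ 2 * b (m - 2)) :
    b 1 ≤ 8 * (1 - 2 * q + (7 / 8 : ℝ) ^ (M + 6)) ∧ b (-1) ≤ 8 * (1 - 2 * q + (7 / 8 : ℝ) ^ (M + 6))
      ∧ b (-2) ≤ 8 * (1 - 2 * q + (7 / 8 : ℝ) ^ (M + 6)) := by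
  have h1 : ∑ m, wt m * a m ≤ 1 := by
    refine le_trans (Finset.sum_le_sum fun m _ => ?_) hsum
    have := wt_le_one m
    have := ha m
    nlinarith [wt_nonneg m]
  have hwt2 : wt (2 : ZMod (M + 8)) = (7 / 8 : ℝ) ^ (M + 6) := by
    rw [two_eq, wt_neg (M + 6) (by omega)]
  have h2 : ∑ m, wt m * a m = 2 * q - q ^ 2 * (7 / 8 : ℝ) ^ (M + 6)
      + ∑ m, b m * (wt m - 2 * q * wt (m + 1) + q ^ 2 * wt (m + 2)) := by
    have s1 : ∑ m : ZMod (M + 8), wt m * dl (m - 1) = (1 : ℝ) := by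
      rw [Finset.sum_eq_single 1]
      · rw [wt_one]; simp [dl]
      · intro m _ hm
        unfold dl; rw [if_neg (sub_ne_zero.mpr hm)]; simp
      · intro h; simp at h
    have s2 : ∑ m : ZMod (M + 8), wt m * dl (m - 2) = (7 / 8 : ℝ) ^ (M + 6) := by
      rw [Finset.sum_eq_single 2]
      · rw [hwt2]; simp [dl]
      · intro m _ hm
        unfold dl; rw [if_neg (sub_ne_zero.mpr hm)]; simp
      · intro h; simp at h
    have s3 : ∑ m, wt m * b (m - 1) = ∑ m, wt (m + 1) * b m := by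
      rw [← Equiv.sum_comp (Equiv.addRight (1 : ZMod (M + 8)))]
      apply Finset.sum_congr rfl; intro m _
      simp
    have s4 : ∑ m, wt m * b (m - 2) = ∑ m, wt (m + 2) * b m := by
      rw [← Equiv.sum_comp (Equiv.addRight (2 : ZMod (M + 8)))]
      apply Finset.sum_congr rfl; intro m _
      simp
    have e1 : ∑ m, wt m * a m = 2 * q * (∑ m : ZMod (M + 8), wt m * dl (m - 1)) - q ^ 2 * (∑ m : ZMod (M + 8), wt m * dl (m - 2))
        + ∑ m, wt m * b m - 2 * q * (∑ m, wt m * b (m - 1)) + q ^ 2 * ∑ m, wt m * b (m - 2) := by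
      rw [Finset.mul_sum, Finset.mul_sum, Finset.mul_sum, Finset.mul_sum, ← Finset.sum_sub_distrib,
        ← Finset.sum_add_distrib, ← Finset.sum_sub_distrib, ← Finset.sum_add_distrib]
      apply Finset.sum_congr rfl; intro m _
      rw [hrel m]; ring
    rw [e1, s1, s2, s3, s4]
    have e2 : ∑ m, b m * (wt m - 2 * q * wt (m + 1) + q ^ 2 * wt (m + 2))
        = ∑ m, wt m * b m - 2 * q * (∑ m, wt (m + 1) * b m) + q ^ 2 * ∑ m, wt (m + 2) * b m := by
      rw [Finset.mul_sum, Finset.mul_sum, ← Finset.sum_sub_distrib, ← Finset.sum_add_distrib]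
      apply Finset.sum_congr rfl; intro m _
      ring
    rw [e2]; ring
  have hpow0 : (0 : ℝ) ≤ (7 / 8 : ℝ) ^ (M + 6) := by positivity
  have hpow1 : (7 / 8 : ℝ) ^ (M + 6) ≤ (7 / 8 : ℝ) ^ 6 :=
    pow_le_pow_of_le_one (by norm_num) (by norm_num) (by omega)
  have h3 : ∑ m, b m * (wt m - 2 * q * wt (m + 1) + q ^ 2 * wt (m + 2)) ≤ 1 - 2 * q + (7 / 8 : ℝ) ^ (M + 6) := by
    have hqq : q ^ 2 ≤ 1 := by nlinarith
    have hq3 : q ^ 2 * (7 / 8 : ℝ) ^ (M + 6) ≤ (7 / 8 : ℝ) ^ (M + 6) := by nlinarith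
    linarith
  have h4 : ∀ m, b m * (wt m - 2 * q * wt (m + 1) + q ^ 2 * wt (m + 2)) ≤ 1 - 2 * q + (7 / 8 : ℝ) ^ (M + 6) := by
    intro m
    refine le_trans ?_ h3
    exact Finset.single_le_sum (f := fun m => b m * (wt m - 2 * q * wt (m + 1) + q ^ 2 * wt (m + 2)))
      (fun m _ => mul_nonneg (hb m) (coeff_nonneg q hq0 hq m)) (Finset.mem_univ m)
  refine ⟨?_, ?_, ?_⟩
  · have h5 := h4 1
    have e : wt (1 : ZMod (M + 8)) - 2 * q * wt ((1 : ZMod (M + 8)) + 1) + q ^ 2 * wt ((1 : ZMod (M + 8)) + 2) ≥ 1 / 8 := by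
      rw [wt_one, show (1 : ZMod (M + 8)) + 1 = 2 by ring, hwt2]
      have := wt_nonneg ((1 : ZMod (M + 8)) + 2)
      have h6 : (7 / 8 : ℝ) ^ 6 ≤ 7 / 8 := by norm_num
      have h7 : 2 * q * (7 / 8 : ℝ) ^ (M + 6) ≤ (7 / 8 : ℝ) ^ (M + 6) := by nlinarith
      have h8 := mul_nonneg (sq_nonneg q) this
      clear h5 h4 h3 h2 h1
      generalize wt ((1 : ZMod (M + 8)) + 2) = w3 at *
      generalize (7 / 8 : ℝ) ^ (M + 6) = p at *
      norm_num at *
      linarith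
    have := hb 1
    nlinarith
  · have h5 := h4 (-1)
    have e : wt (-1 : ZMod (M + 8)) - 2 * q * wt ((-1 : ZMod (M + 8)) + 1) + q ^ 2 * wt ((-1 : ZMod (M + 8)) + 2) ≥ 1 / 8 := by
      have w1 : wt (-1 : ZMod (M + 8)) = 7 / 8 := by
        have := wt_neg (M := M) 1 (by omega)
        simpa using this
      have w0 : wt ((-1 : ZMod (M + 8)) + 1) ≤ 1 := wt_le_one _
      rw [show (-1 : ZMod (M + 8)) + 2 = 1 by ring, wt_one, w1]
      have h7 : 2 * q * wt ((-1 : ZMod (M + 8)) + 1) ≤ 2 * q := by nlinarith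
      have h8 : 0 ≤ (1 / 2 - q) * (3 / 2 - q) := mul_nonneg (by linarith) (by linarith)
      clear h5 h4 h3 h2 h1
      generalize wt ((-1 : ZMod (M + 8)) + 1) = w3 at *
      nlinarith
    have := hb (-1)
    nlinarith
  · have h5 := h4 (-2)
    have e : wt (-2 : ZMod (M + 8)) - 2 * q * wt ((-2 : ZMod (M + 8)) + 1) + q ^ 2 * wt ((-2 : ZMod (M + 8)) + 2) ≥ 1 / 8 := by
      have := coeff_lower (M := M) q 2 (by omega) le_rfl
      rw [show (-2 : ZMod (M + 8)) = -((2 : ℕ) : ZMod (M + 8)) by push_cast; ring, this]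
      norm_num
      nlinarith
    have := hb (-2)
    nlinarith

/-- modes of a scalar function -/
noncomputable def Lv (m : ZMod (M + 8)) (u : ZMod (M + 8) → ℂ) : ℂ :=
  (((M + 8 : ℕ) : ℂ)⁻¹) * ∑ l, (ZMod.stdAddChar (N := M + 8)) (m * l) * u l

lemma inner_right_md {H : Type} [NormedAddCommGroup H] [InnerProductSpace ℂ H] (v : H)
    (f : ZMod (M + 8) → H) (m : ZMod (M + 8)) :
    inner ℂ v (md f m) = Lv m (fun l => inner ℂ v (f l)) := by
  unfold md Lv
  rw [inner_smul_right, inner_sum]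
  congr 1
  apply Finset.sum_congr rfl; intro l _
  rw [inner_smul_right]

lemma Lv_add (m : ZMod (M + 8)) (u v : ZMod (M + 8) → ℂ) : Lv m (fun l => u l + v l) = Lv m u + Lv m v := by
  unfold Lv
  rw [← mul_add, ← Finset.sum_add_distrib]
  congr 1
  apply Finset.sum_congr rfl; intro l _
  ring

lemma Lv_smul (m : ZMod (M + 8)) (c : ℂ) (u : ZMod (M + 8) → ℂ) : Lv m (fun l => c * u l) = c * Lv m u := by
  unfold Lv
  have h : ∑ l, (ZMod.stdAddChar (N := M + 8)) (m * l) * (c * u l) = c * ∑ l, (ZMod.stdAddChar (N := M + 8)) (m * l) * u l := by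
    rw [Finset.mul_sum]
    apply Finset.sum_congr rfl; intro l _
    ring
  rw [h]; ring

lemma Lv_shift (m : ZMod (M + 8)) (u : ZMod (M + 8) → ℂ) : Lv m (fun l => (ZMod.stdAddChar (N := M + 8)) (-l) * u l) = Lv (m - 1) u := by
  unfold Lv
  congr 1
  apply Finset.sum_congr rfl; intro l _
  have : (ZMod.stdAddChar (N := M + 8)) (m * l) * (ZMod.stdAddChar (N := M + 8)) (-l) = (ZMod.stdAddChar (N := M + 8)) ((m - 1) * l) := by
    rw [← AddChar.map_add_eq_mul]; congr 1; ring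
  rw [← this]; ring

lemma Lv_one (m : ZMod (M + 8)) : Lv m (fun _ => 1) = (dl m : ℂ) := by
  unfold Lv
  have h3 : (((M + 8 : ℕ) : ℂ)) ≠ 0 := by exact_mod_cast (by omega : M + 8 ≠ 0)
  simp only [mul_one]
  rw [sum_chi]
  field_simp

lemma relation_one (u v : ZMod (M + 8) → ℂ) (s : ℂ)
    (huv : ∀ l, u l = 1 - (1 - s * (ZMod.stdAddChar (N := M + 8)) (-l)) ^ 2 * (1 - v l)) (m : ZMod (M + 8)) :
    Lv m u = 2 * s * (dl (m - 1) : ℂ) - s ^ 2 * (dl (m - 2) : ℂ) + Lv m v - 2 * s * Lv (m - 1) v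
      + s ^ 2 * Lv (m - 2) v := by
  have e2 : ∀ a : ZMod (M + 8), a - 1 - 1 = a - 2 := by intro a; ring
  have h1 : Lv m u
      = Lv m (fun l => (2 * s) * ((ZMod.stdAddChar (N := M + 8)) (-l) * 1) + ((-s ^ 2) * ((ZMod.stdAddChar (N := M + 8)) (-l) * ((ZMod.stdAddChar (N := M + 8)) (-l) * 1))
        + (v l + ((-2 * s) * ((ZMod.stdAddChar (N := M + 8)) (-l) * v l) + s ^ 2 * ((ZMod.stdAddChar (N := M + 8)) (-l) * ((ZMod.stdAddChar (N := M + 8)) (-l) * v l)))))) := by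
    congr 1
    funext l
    rw [huv]; ring
  rw [h1, Lv_add, Lv_add, Lv_add, Lv_add, Lv_smul, Lv_smul, Lv_smul, Lv_smul,
    Lv_shift, Lv_shift, Lv_shift, Lv_shift, Lv_shift, Lv_shift, Lv_one, Lv_one, e2]
  ring

lemma neg_one_ne : (-1 : ZMod (M + 8)) ≠ 0 := by
  intro h
  have := ZMod.val_neg_one (M + 7)
  rw [show (-1 : ZMod (M + 7 + 1)) = 0 from h] at this
  simp at this

lemma one_ne : (1 : ZMod (M + 8)) ≠ 0 := by
  intro h; apply neg_one_ne (M := M); rw [h]; simp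

lemma neg_two_ne : (-2 : ZMod (M + 8)) ≠ 0 := by
  intro h
  have h2 : (2 : ZMod (M + 8)) = 0 := by
    have : (2 : ZMod (M + 8)) = -(-2) := by ring
    rw [this, h]; simp
  have h3 : ((2 : ℕ) : ZMod (M + 8)) = 0 := by exact_mod_cast h2
  rw [ZMod.natCast_eq_zero_iff] at h3
  have := Nat.le_of_dvd (by norm_num) h3
  omega

lemma inner_self_c {H : Type} [NormedAddCommGroup H] [InnerProductSpace ℂ H] (v : H) :
    (inner ℂ v v : ℂ) = ((‖v‖ ^ 2 : ℝ) : ℂ) := by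
  rw [inner_self_eq_norm_sq_to_K]; push_cast; rfl

variable (M) in
lemma modes_est {H H' : Type} [NormedAddCommGroup H] [InnerProductSpace ℂ H]
    [NormedAddCommGroup H'] [InnerProductSpace ℂ H'] (f : Disc → H) (g : Disc → H')
    (hfg : ∀ z w : Disc, inner ℂ (f z) (f w) = 1 - (1 - (z : ℂ) * conj (w : ℂ)) ^ 2 * (1 - inner ℂ (g z) (g w)))
    (hf : ∀ z, ‖f z‖ ≤ 1) (hg : ∀ z, ‖g z‖ ≤ 1) (q : ℝ) (hq0 : 0 < q) (hq : q < 1 / 2) :
    ∃ e0 e1 : H, ‖e0‖ ^ 2 + ‖e1‖ ^ 2 ≤ 1 ∧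
      ‖(inner ℂ e1 e0 : ℂ)‖ ≤ 3 * Real.sqrt (8 * (1 - 2 * q + (7 / 8 : ℝ) ^ (M + 6))) ∧
      ∀ x : Disc, ‖inner ℂ (f x) e1 + 2 * ((x : ℂ) * (Real.sqrt q : ℝ)) * inner ℂ (f x) e0
        - 2 * ((x : ℂ) * (Real.sqrt q : ℝ))‖ ≤ 6 * Real.sqrt (8 * (1 - 2 * q + (7 / 8 : ℝ) ^ (M + 6))) := by
  set κ : ℝ := 8 * (1 - 2 * q + (7 / 8 : ℝ) ^ (M + 6)) with hκ
  have hr0 : 0 < Real.sqrt q := Real.sqrt_pos.mpr hq0
  have hrr : Real.sqrt q * Real.sqrt q = q := Real.mul_self_sqrt hq0.le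
  have hr1 : Real.sqrt q < 1 / Real.sqrt 2 := by
    rw [show (1 : ℝ) / Real.sqrt 2 = Real.sqrt (1 / 2) by
      rw [Real.sqrt_div (by norm_num), Real.sqrt_one]]
    exact Real.sqrt_lt_sqrt hq0.le hq
  have hr2 : Real.sqrt q ≤ 1 := by
    rw [Real.sqrt_le_one]
    linarith
  let zk : ZMod (M + 8) → Disc := fun k => ⟨((Real.sqrt q : ℝ) : ℂ) * (ZMod.stdAddChar (N := M + 8)) k, by
    rw [norm_mul, chi_norm, mul_one, Complex.norm_real, Real.norm_eq_abs, abs_of_pos hr0]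
    exact hr1⟩
  let F' : ZMod (M + 8) → H := fun k => f (zk k)
  let G' : ZMod (M + 8) → H' := fun k => g (zk k)
  have hrrc : ((Real.sqrt q : ℝ) : ℂ) * ((Real.sqrt q : ℝ) : ℂ) = (q : ℂ) := by exact_mod_cast hrr
  have hrel : ∀ k l, inner ℂ (F' k) (F' l) = 1 - (1 - (q : ℂ) * (ZMod.stdAddChar (N := M + 8)) (k - l)) ^ 2 * (1 - inner ℂ (G' k) (G' l)) := by
    intro k l
    have h1 := hfg (zk k) (zk l)
    have h2 : ((zk k : Disc) : ℂ) * conj ((zk l : Disc) : ℂ) = (q : ℂ) * (ZMod.stdAddChar (N := M + 8)) (k - l) := by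
      simp only [zk, map_mul, Complex.conj_ofReal, chi_conj]
      rw [sub_eq_add_neg, AddChar.map_add_eq_mul, ← hrrc]
      ring
    rw [h2] at h1
    exact h1
  have R := relation F' G' (q : ℂ) hrel
  have hpF := parseval F' (fun k => hf _)
  have hpG := parseval G' (fun k => hg _)
  have hGle : ∀ m, ‖md G' m‖ ≤ 1 := by
    intro m
    have h1 : ‖md G' m‖ ^ 2 ≤ 1 := le_trans (Finset.single_le_sum (f := fun m => ‖md G' m‖ ^ 2)
      (fun m _ => by positivity) (Finset.mem_univ m)) hpG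
    have := norm_nonneg (md G' m)
    nlinarith
  have hreal : ∀ m, ‖md F' m‖ ^ 2 = 2 * q * dl (m - 1) - q ^ 2 * dl (m - 2) + ‖md G' m‖ ^ 2
      - 2 * q * ‖md G' (m - 1)‖ ^ 2 + q ^ 2 * ‖md G' (m - 2)‖ ^ 2 := by
    intro m
    have h1 := R m m
    rw [inner_self_c, inner_self_c, inner_self_c, inner_self_c] at h1
    have hd : ∀ a : ZMod (M + 8), (dl a : ℂ) * (dl a : ℂ) = (dl a : ℂ) := by
      intro a; unfold dl; split_ifs <;> simp
    rw [hd, hd] at h1
    exact_mod_cast h1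
  obtain ⟨b1, b2, b3⟩ := dual (fun m => ‖md F' m‖ ^ 2) (fun m => ‖md G' m‖ ^ 2) q hq0 hq
    (fun m => by positivity) (fun m => by positivity) hpF hreal
  have s1 : ‖md G' 1‖ ≤ Real.sqrt κ := Real.le_sqrt_of_sq_le b1
  have s2 : ‖md G' (-1)‖ ≤ Real.sqrt κ := Real.le_sqrt_of_sq_le b2
  have s3 : ‖md G' (-2)‖ ≤ Real.sqrt κ := Real.le_sqrt_of_sq_le b3
  have hκ0 : 0 ≤ Real.sqrt κ := Real.sqrt_nonneg _
  have d1 : dl (-1 : ZMod (M + 8)) = 0 := by unfold dl; rw [if_neg neg_one_ne]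
  have d2 : dl (-2 : ZMod (M + 8)) = 0 := by unfold dl; rw [if_neg neg_two_ne]
  have d0 : dl (0 : ZMod (M + 8)) = 1 := by unfold dl; simp
  refine ⟨md F' 0, md F' 1, ?_, ?_, ?_⟩
  · have h1 : ∑ m ∈ ({0, 1} : Finset (ZMod (M + 8))), ‖md F' m‖ ^ 2 ≤ ∑ m, ‖md F' m‖ ^ 2 :=
      Finset.sum_le_sum_of_subset_of_nonneg (Finset.subset_univ _) (fun _ _ _ => by positivity)
    rw [Finset.sum_pair (Ne.symm one_ne)] at h1
    linarith
  · have h1 := R 1 0
    rw [show (1 : ZMod (M + 8)) - 1 = 0 by ring, show (0 : ZMod (M + 8)) - 1 = -1 by ring,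
      show (1 : ZMod (M + 8)) - 2 = -1 by ring, show (0 : ZMod (M + 8)) - 2 = -2 by ring, d1, d2] at h1
    have h2 : inner ℂ (md F' 1) (md F' 0) = inner ℂ (md G' 1) (md G' 0)
        - 2 * (q : ℂ) * inner ℂ (md G' 0) (md G' (-1)) + (q : ℂ) ^ 2 * inner ℂ (md G' (-1)) (md G' (-2)) := by
      rw [h1]; push_cast; ring
    rw [h2]
    have t1 : ‖(inner ℂ (md G' 1) (md G' 0) : ℂ)‖ ≤ Real.sqrt κ := by
      refine (norm_inner_le_norm _ _).trans ?_
      calc ‖md G' 1‖ * ‖md G' 0‖ ≤ Real.sqrt κ * 1 := mul_le_mul s1 (hGle 0) (norm_nonneg _) hκ0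
        _ = _ := mul_one _
    have t2 : ‖2 * (q : ℂ) * inner ℂ (md G' 0) (md G' (-1))‖ ≤ Real.sqrt κ := by
      rw [norm_mul, norm_mul, Complex.norm_real, Real.norm_eq_abs, abs_of_pos hq0]
      have := (norm_inner_le_norm (𝕜 := ℂ) (md G' 0) (md G' (-1)))
      have h3 : ‖md G' 0‖ * ‖md G' (-1)‖ ≤ 1 * Real.sqrt κ := mul_le_mul (hGle 0) s2 (norm_nonneg _) (by norm_num)
      have h4 : ‖(2 : ℂ)‖ * q ≤ 1 := by simp; linarith
      have h5 : 0 ≤ ‖(2 : ℂ)‖ * q := by positivity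
      calc ‖(2 : ℂ)‖ * q * ‖(inner ℂ (md G' 0) (md G' (-1)) : ℂ)‖ ≤ 1 * (1 * Real.sqrt κ) :=
            mul_le_mul h4 (this.trans h3) (norm_nonneg _) (by norm_num)
        _ = _ := by ring
    have t3 : ‖(q : ℂ) ^ 2 * inner ℂ (md G' (-1)) (md G' (-2))‖ ≤ Real.sqrt κ := by
      rw [norm_mul, norm_pow, Complex.norm_real, Real.norm_eq_abs, abs_of_pos hq0]
      have := (norm_inner_le_norm (𝕜 := ℂ) (md G' (-1)) (md G' (-2)))
      have h3 : ‖md G' (-1)‖ * ‖md G' (-2)‖ ≤ 1 * Real.sqrt κ := mul_le_mul (hGle _) s3 (norm_nonneg _) (by norm_num)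
      have h4 : q ^ 2 ≤ 1 := by nlinarith
      calc q ^ 2 * ‖(inner ℂ (md G' (-1)) (md G' (-2)) : ℂ)‖ ≤ 1 * (1 * Real.sqrt κ) :=
            mul_le_mul h4 (this.trans h3) (norm_nonneg _) (by norm_num)
        _ = _ := by ring
    calc _ ≤ ‖(inner ℂ (md G' 1) (md G' 0) : ℂ)‖ + ‖2 * (q : ℂ) * inner ℂ (md G' 0) (md G' (-1))‖
          + ‖(q : ℂ) ^ 2 * inner ℂ (md G' (-1)) (md G' (-2))‖ :=
          (norm_add_le _ _).trans (add_le_add (norm_sub_le _ _) le_rfl)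
      _ ≤ _ := by linarith
  · intro x
    set s : ℂ := (x : ℂ) * (Real.sqrt q : ℝ) with hs
    have hsn : ‖s‖ ≤ 1 := by
      rw [hs, norm_mul, Complex.norm_real, Real.norm_eq_abs, abs_of_pos hr0]
      have hx : ‖(x : ℂ)‖ ≤ 1 := by
        have h1 := x.2
        have h2 : (1 : ℝ) / Real.sqrt 2 ≤ 1 := by
          rw [div_le_one (by positivity)]
          exact Real.one_le_sqrt.mpr (by norm_num)
        linarith
      have := norm_nonneg (x : ℂ)
      nlinarith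
    have hux : ∀ l, inner ℂ (f x) (F' l) = 1 - (1 - s * (ZMod.stdAddChar (N := M + 8)) (-l)) ^ 2 * (1 - inner ℂ (g x) (G' l)) := by
      intro l
      have h1 := hfg x (zk l)
      have h2 : (x : ℂ) * conj ((zk l : Disc) : ℂ) = s * (ZMod.stdAddChar (N := M + 8)) (-l) := by
        simp only [zk, map_mul, Complex.conj_ofReal, chi_conj, hs]
        ring
      rw [h2] at h1
      exact h1
    have Q := relation_one _ _ s hux
    have q1 := Q 1
    have q0 := Q 0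
    rw [← inner_right_md, ← inner_right_md, ← inner_right_md, ← inner_right_md] at q1 q0
    rw [show (1 : ZMod (M + 8)) - 1 = 0 by ring, show (1 : ZMod (M + 8)) - 2 = -1 by ring, d1, d0] at q1
    rw [show (0 : ZMod (M + 8)) - 1 = -1 by ring, show (0 : ZMod (M + 8)) - 2 = -2 by ring, d1, d2] at q0
    have h2 : inner ℂ (f x) (md F' 1) + 2 * s * inner ℂ (f x) (md F' 0) - 2 * s
        = inner ℂ (g x) (md G' 1) - 3 * s ^ 2 * inner ℂ (g x) (md G' (-1))
          + 2 * s ^ 3 * inner ℂ (g x) (md G' (-2)) := by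
      rw [q1, q0]; push_cast; ring
    rw [h2]
    have gen : ∀ m, ‖md G' m‖ ≤ Real.sqrt κ → ‖(inner ℂ (g x) (md G' m) : ℂ)‖ ≤ Real.sqrt κ := by
      intro m hm
      refine (norm_inner_le_norm _ _).trans ?_
      calc ‖g x‖ * ‖md G' m‖ ≤ 1 * Real.sqrt κ := mul_le_mul (hg x) hm (norm_nonneg _) (by norm_num)
        _ = _ := one_mul _
    have t1 := gen 1 s1
    have t2 := gen (-1) s2
    have t3 := gen (-2) s3
    have n2 : ‖3 * s ^ 2 * inner ℂ (g x) (md G' (-1))‖ ≤ 3 * Real.sqrt κ := by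
      rw [norm_mul, norm_mul, norm_pow]
      have : ‖s‖ ^ 2 ≤ 1 := pow_le_one₀ (norm_nonneg _) hsn
      have h3 : ‖(3 : ℂ)‖ = 3 := by simp
      rw [h3]
      calc 3 * ‖s‖ ^ 2 * ‖(inner ℂ (g x) (md G' (-1)) : ℂ)‖ ≤ 3 * 1 * Real.sqrt κ := by gcongr
        _ = _ := by ring
    have n3 : ‖2 * s ^ 3 * inner ℂ (g x) (md G' (-2))‖ ≤ 2 * Real.sqrt κ := by
      rw [norm_mul, norm_mul, norm_pow]
      have : ‖s‖ ^ 3 ≤ 1 := pow_le_one₀ (norm_nonneg _) hsn
      have h3 : ‖(2 : ℂ)‖ = 2 := by simp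
      rw [h3]
      calc 2 * ‖s‖ ^ 3 * ‖(inner ℂ (g x) (md G' (-2)) : ℂ)‖ ≤ 2 * 1 * Real.sqrt κ := by gcongr
        _ = _ := by ring
    calc _ ≤ ‖(inner ℂ (g x) (md G' 1) : ℂ)‖ + ‖3 * s ^ 2 * inner ℂ (g x) (md G' (-1))‖
          + ‖2 * s ^ 3 * inner ℂ (g x) (md G' (-2))‖ :=
          (norm_add_le _ _).trans (add_le_add (norm_sub_le _ _) le_rfl)
      _ ≤ _ := by linarith

end modes



lemma ulim_exists {E : Type*} [NormedAddCommGroup E] [ProperSpace E] (u : ℕ → E) (C : ℝ) (hu : ∀ n, ‖u n‖ ≤ C) :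
    ∃ a : E, Tendsto u (Filter.hyperfilter ℕ) (𝓝 a) := by
  have hc : IsCompact (Metric.closedBall (0 : E) C) := isCompact_closedBall _ _
  have h1 : (((Filter.hyperfilter ℕ).map u : Ultrafilter E) : Filter E) ≤ 𝓟 (Metric.closedBall (0 : E) C) := by
    rw [Ultrafilter.coe_map]
    exact Filter.tendsto_principal.mpr (Filter.Eventually.of_forall fun n => by simp [hu n])
  obtain ⟨a, _, ha⟩ := hc.ultrafilter_le_nhds _ h1
  exact ⟨a, ha⟩

lemma dsum {N : ℕ} (a : Fin N → ℂ) : (∑ i, a i) * conj (∑ i, a i) = ∑ i, ∑ j, a i * conj (a j) := by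
  rw [map_sum, Finset.sum_mul_sum]

lemma psi_exists (F h : Disc → Disc → ℂ) (hF : IsKernel F) (hh : IsKernel h) (hF1 : ∀ z, (F z z).re < 1)
    (hh1 : ∀ z, (h z z).re < 1)
    (hrel : ∀ z w : Disc, F z w = 1 - (1 - (z : ℂ) * conj (w : ℂ)) ^ 2 * (1 - h z w)) :
    ∃ ψ : Disc → ℂ, IsKernel (fun z w => ψ z * conj (ψ w) * (1 - 2 * ((z : ℂ) * conj (w : ℂ))) - 1 + F z w) := by
  obtain ⟨H, _, _, f, hf⟩ := hF.feature
  obtain ⟨H', _, _, g, hg⟩ := hh.feature
  have hfn : ∀ z, ‖f z‖ ^ 2 < 1 := by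
    intro z
    have := hF1 z
    rw [hf, inner_self_c, Complex.ofReal_re] at this
    exact this
  have hgn : ∀ z, ‖g z‖ ^ 2 < 1 := by
    intro z
    have := hh1 z
    rw [hg, inner_self_c, Complex.ofReal_re] at this
    exact this
  have hf1 : ∀ z, ‖f z‖ ≤ 1 := fun z => by nlinarith [hfn z, norm_nonneg (f z)]
  have hg1 : ∀ z, ‖g z‖ ≤ 1 := fun z => by nlinarith [hgn z, norm_nonneg (g z)]
  have hfg : ∀ z w : Disc, inner ℂ (f z) (f w) = 1 - (1 - (z : ℂ) * conj (w : ℂ)) ^ 2 * (1 - inner ℂ (g z) (g w)) := by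
    intro z w; rw [← hf, ← hg]; exact hrel z w
  let q : ℕ → ℝ := fun n => (1 / 2) * (1 - 1 / ((n : ℝ) + 2))
  have hq0 : ∀ n, 0 < q n := by
    intro n
    have : (1 : ℝ) / ((n : ℝ) + 2) < 1 := by
      rw [div_lt_one (by positivity)]; have : (0 : ℝ) ≤ n := by positivity
      linarith
    simp only [q]; linarith
  have hq1 : ∀ n, q n < 1 / 2 := by
    intro n
    have : (0 : ℝ) < 1 / ((n : ℝ) + 2) := by positivity
    simp only [q]; linarith
  choose e0 e1 hA hB hC using fun n => modes_est n f g hfg hf1 hg1 (q n) (hq0 n) (hq1 n)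
  set U : Filter ℕ := (Filter.hyperfilter ℕ : Filter ℕ) with hU
  have hUle : U ≤ atTop := by
    rw [hU, ← Nat.cofinite_eq_atTop]; exact Filter.hyperfilter_le_cofinite
  have hlim1 : Tendsto (fun n : ℕ => (1 : ℝ) / ((n : ℝ) + 2)) atTop (𝓝 0) := by
    have h1 := tendsto_one_div_add_atTop_nhds_zero_nat (𝕜 := ℝ)
    have h2 := (tendsto_add_atTop_iff_nat (f := fun n : ℕ => (1 : ℝ) / ((n : ℝ) + 1)) 1).mpr h1
    refine h2.congr (fun n => ?_)
    push_cast; congr 1; ring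
  have hq : Tendsto q U (𝓝 (1 / 2)) := by
    have h1 : Tendsto q atTop (𝓝 ((1 / 2) * (1 - 0))) := (hlim1.const_sub 1).const_mul (1 / 2)
    simp at h1
    exact (by simpa using h1 : Tendsto q atTop (𝓝 (1 / 2))).mono_left hUle
  have hκ : Tendsto (fun n : ℕ => Real.sqrt (8 * (1 - 2 * q n + (7 / 8 : ℝ) ^ (n + 6)))) atTop (𝓝 0) := by
    have h1 : Tendsto (fun n : ℕ => (7 / 8 : ℝ) ^ (n + 6)) atTop (𝓝 0) :=
      (tendsto_add_atTop_iff_nat 6).mpr (tendsto_pow_atTop_nhds_zero_of_lt_one (by norm_num) (by norm_num))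
    have h2 : Tendsto (fun n : ℕ => 8 * (1 - 2 * q n + (7 / 8 : ℝ) ^ (n + 6))) atTop (𝓝 0) := by
      have h3 := (hlim1.add h1).const_mul 8
      simp only [add_zero, mul_zero] at h3
      refine h3.congr (fun n => ?_)
      simp only [q]; ring
    have h4 := (Real.continuous_sqrt.tendsto 0).comp h2
    rw [Real.sqrt_zero] at h4
    exact h4
  have hn0 : ∀ n, ‖e0 n‖ ≤ 1 := fun n => by nlinarith [hA n, norm_nonneg (e0 n), sq_nonneg ‖e1 n‖]
  have hn1 : ∀ n, ‖e1 n‖ ≤ 1 := fun n => by nlinarith [hA n, norm_nonneg (e1 n), sq_nonneg ‖e0 n‖]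
  -- limits
  have hφ : ∀ x, ∃ a : ℂ, Tendsto (fun n => inner ℂ (f x) (e0 n)) U (𝓝 a) := fun x =>
    ulim_exists _ 1 (fun n => (norm_inner_le_norm _ _).trans (by
      have := mul_le_mul (hf1 x) (hn0 n) (norm_nonneg _) (by norm_num : (0 : ℝ) ≤ 1)
      simpa using this))
  have hχ : ∀ x, ∃ a : ℂ, Tendsto (fun n => inner ℂ (f x) (e1 n)) U (𝓝 a) := fun x =>
    ulim_exists _ 1 (fun n => (norm_inner_le_norm _ _).trans (by
      have := mul_le_mul (hf1 x) (hn1 n) (norm_nonneg _) (by norm_num : (0 : ℝ) ≤ 1)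
      simpa using this))
  choose φ hφ using hφ
  choose χ hχ using hχ
  obtain ⟨A0, hA0⟩ := ulim_exists (fun n => ‖e0 n‖ ^ 2) 1 (fun n => by
    rw [Real.norm_eq_abs, abs_of_nonneg (by positivity)]; nlinarith [hn0 n, norm_nonneg (e0 n)])
  obtain ⟨A1, hA1⟩ := ulim_exists (fun n => ‖e1 n‖ ^ 2) 1 (fun n => by
    rw [Real.norm_eq_abs, abs_of_nonneg (by positivity)]; nlinarith [hn1 n, norm_nonneg (e1 n)])
  have hA0' : 0 ≤ A0 := ge_of_tendsto' hA0 (fun n => by positivity)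
  have hA1' : 0 ≤ A1 := ge_of_tendsto' hA1 (fun n => by positivity)
  have hAA : A0 + A1 ≤ 1 := le_of_tendsto' (hA0.add hA1) hA
  have hcross : Tendsto (fun n => (inner ℂ (e0 n) (e1 n) : ℂ)) U (𝓝 0) := by
    apply squeeze_zero_norm (a := fun n => 3 * Real.sqrt (8 * (1 - 2 * q n + (7 / 8 : ℝ) ^ (n + 6))))
    · intro n
      rw [norm_inner_symm]; exact hB n
    · have := (hκ.const_mul 3).mono_left hUle
      simpa using this
  set t : ℝ := 2 * Real.sqrt (1 / 2) with ht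
  have ht2 : t ^ 2 = 2 := by
    rw [ht, mul_pow, Real.sq_sqrt (by norm_num)]; norm_num
  have htpos : 0 < t := by rw [ht]; positivity
  have hχφ : ∀ x : Disc, χ x = t * x * (1 - φ x) := by
    intro x
    have h1 : Tendsto (fun n => inner ℂ (f x) (e1 n) + 2 * ((x : ℂ) * (Real.sqrt (q n) : ℝ)) * inner ℂ (f x) (e0 n)
        - 2 * ((x : ℂ) * (Real.sqrt (q n) : ℝ))) U (𝓝 0) := by
      apply squeeze_zero_norm (a := fun n => 6 * Real.sqrt (8 * (1 - 2 * q n + (7 / 8 : ℝ) ^ (n + 6))))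
      · intro n; exact hC n x
      · have := (hκ.const_mul 6).mono_left hUle
        simpa using this
    have h2 : Tendsto (fun n => ((Real.sqrt (q n) : ℝ) : ℂ)) U (𝓝 ((Real.sqrt (1 / 2) : ℝ) : ℂ)) :=
      (Complex.continuous_ofReal.tendsto _).comp ((Real.continuous_sqrt.tendsto _).comp hq)
    have h3 := ((hχ x).add (((h2.const_mul (x : ℂ)).const_mul 2).mul (hφ x))).sub ((h2.const_mul (x : ℂ)).const_mul 2)
    have h4 := tendsto_nhds_unique h1 h3
    rw [ht]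
    push_cast
    linear_combination -h4
  have hφ1 : ∀ x, ‖φ x‖ ^ 2 ≤ ‖f x‖ ^ 2 := by
    intro x
    have h1 := (((hφ x).norm).pow 2)
    refine le_of_tendsto' h1 (fun n => ?_)
    have h2 := norm_inner_le_norm (𝕜 := ℂ) (f x) (e0 n)
    have h3 : ‖f x‖ * ‖e0 n‖ ≤ ‖f x‖ := by nlinarith [norm_nonneg (f x), hn0 n]
    exact pow_le_pow_left₀ (norm_nonneg _) (h2.trans h3) 2
  have hχ1 : ∀ x, ‖χ x‖ ^ 2 ≤ A1 := by
    intro x
    have h1 := (((hχ x).norm).pow 2)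
    refine le_of_tendsto_of_tendsto' h1 hA1 (fun n => ?_)
    have h2 := norm_inner_le_norm (𝕜 := ℂ) (f x) (e1 n)
    have h3 : ‖f x‖ * ‖e1 n‖ ≤ ‖e1 n‖ := by nlinarith [norm_nonneg (e1 n), hf1 x]
    exact pow_le_pow_left₀ (norm_nonneg _) (h2.trans h3) 2
  set ε : ℝ := 1 - A0 with hε
  have hA1ε : A1 ≤ ε := by rw [hε]; linarith
  have hεpos : 0 < ε := by
    by_contra hcon
    have h1 : A1 = 0 := by linarith
    have hhalf : ‖(1 / 2 : ℂ)‖ < 1 / Real.sqrt 2 := by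
      have h2 : ‖(1 / 2 : ℂ)‖ = 1 / 2 := by norm_num
      rw [h2]
      apply one_div_lt_one_div_of_lt (by positivity)
      rw [Real.sqrt_lt' (by norm_num)]; norm_num
    set x0 : Disc := ⟨1 / 2, hhalf⟩ with hx0
    have h2 := hχ1 x0
    rw [h1] at h2
    have h3 : χ x0 = 0 := by
      have : ‖χ x0‖ = 0 := by nlinarith [norm_nonneg (χ x0)]
      exact norm_eq_zero.mp this
    rw [hχφ x0] at h3
    have h4 : (1 - φ x0) = 0 := by
      have ht' : (t : ℂ) ≠ 0 := by exact_mod_cast htpos.ne'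
      have hx : ((x0 : Disc) : ℂ) ≠ 0 := by simp [hx0]
      rcases mul_eq_zero.mp h3 with h5 | h5
      · rcases mul_eq_zero.mp h5 with h6 | h6
        · exact absurd h6 ht'
        · exact absurd h6 hx
      · exact h5
    have h5 : φ x0 = 1 := by linear_combination -h4
    have h6 := hφ1 x0
    rw [h5, norm_one, one_pow] at h6
    linarith [hfn x0]
  have hsε : 0 < Real.sqrt ε := Real.sqrt_pos.mpr hεpos
  have hsε2 : Real.sqrt ε * Real.sqrt ε = ε := Real.mul_self_sqrt hεpos.le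
  refine ⟨fun x => (1 - φ x) / (Real.sqrt ε : ℝ), ?_⟩
  intro N x c
  set V : H := ∑ i, conj (c i) • f (x i) with hV
  set C : ℂ := ∑ i, c i with hCdef
  set Φ : ℂ := ∑ i, c i * φ (x i) with hΦ
  set Ξ : ℂ := ∑ i, c i * χ (x i) with hΞ
  have hVV : ((‖V‖ ^ 2 : ℝ) : ℂ) = ∑ i, ∑ j, c i * conj (c j) * F (x i) (x j) := by
    rw [← inner_self_c, hV, sum_inner]
    apply Finset.sum_congr rfl; intro i _
    rw [inner_smul_left, inner_sum, Finset.mul_sum]
    apply Finset.sum_congr rfl; intro j _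
    rw [inner_smul_right, hf]
    simp
    ring
  have hVe : ∀ e : H, inner ℂ V e = ∑ i, c i * inner ℂ (f (x i)) e := by
    intro e
    rw [hV, sum_inner]
    apply Finset.sum_congr rfl; intro i _
    rw [inner_smul_left]; simp
  have hV0 : Tendsto (fun n => inner ℂ V (e0 n)) U (𝓝 Φ) := by
    simp_rw [hVe]
    exact tendsto_finsetSum _ (fun i _ => (hφ (x i)).const_mul _)
  have hV1 : Tendsto (fun n => inner ℂ V (e1 n)) U (𝓝 Ξ) := by
    simp_rw [hVe]
    exact tendsto_finsetSum _ (fun i _ => (hχ (x i)).const_mul _)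
  have key : ∀ a b : ℂ, 0 ≤ ‖V‖ ^ 2 + 2 * (a * Φ).re + ‖a‖ ^ 2 * A0 + 2 * (b * Ξ).re + ‖b‖ ^ 2 * A1 := by
    intro a b
    have h1 : ∀ n, 0 ≤ ‖V‖ ^ 2 + 2 * (a * inner ℂ V (e0 n)).re + ‖a‖ ^ 2 * ‖e0 n‖ ^ 2
        + 2 * (b * inner ℂ V (e1 n) + b * (conj a * inner ℂ (e0 n) (e1 n))).re + ‖b‖ ^ 2 * ‖e1 n‖ ^ 2 := by
      intro n
      have h2 : ‖(V + a • e0 n) + b • e1 n‖ ^ 2 = ‖V‖ ^ 2 + 2 * (a * inner ℂ V (e0 n)).re + ‖a‖ ^ 2 * ‖e0 n‖ ^ 2
        + 2 * (b * inner ℂ V (e1 n) + b * (conj a * inner ℂ (e0 n) (e1 n))).re + ‖b‖ ^ 2 * ‖e1 n‖ ^ 2 := by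
        rw [norm_add_sq (𝕜 := ℂ), norm_add_sq (𝕜 := ℂ), norm_smul, norm_smul, mul_pow, mul_pow,
          inner_smul_right, inner_smul_right, inner_add_left, inner_smul_left, mul_add]
        rfl
      rw [← h2]; positivity
    have h3 : Tendsto (fun n => ‖V‖ ^ 2 + 2 * (a * inner ℂ V (e0 n)).re + ‖a‖ ^ 2 * ‖e0 n‖ ^ 2
        + 2 * (b * inner ℂ V (e1 n) + b * (conj a * inner ℂ (e0 n) (e1 n))).re + ‖b‖ ^ 2 * ‖e1 n‖ ^ 2) U
        (𝓝 (‖V‖ ^ 2 + 2 * (a * Φ).re + ‖a‖ ^ 2 * A0 + 2 * (b * Ξ + b * (conj a * 0)).re + ‖b‖ ^ 2 * A1)) := by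
      have r1 := (Complex.continuous_re.tendsto _).comp (hV0.const_mul a)
      have r2 := (Complex.continuous_re.tendsto _).comp ((hV1.const_mul b).add ((hcross.const_mul (conj a)).const_mul b))
      exact (((r1.const_mul 2).const_add _).add (hA0.const_mul _)).add (r2.const_mul 2) |>.add (hA1.const_mul _)
    have h4 := ge_of_tendsto' h3 h1
    simpa using h4
  have key2 := key (-conj C) (-(conj Ξ) / (ε : ℂ))
  have hεc : (ε : ℂ) ≠ 0 := by exact_mod_cast hεpos.ne'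
  have k1 : (-(conj Ξ) / (ε : ℂ) * Ξ).re = -(‖Ξ‖ ^ 2 / ε) := by
    have : -(conj Ξ) / (ε : ℂ) * Ξ = ((-(‖Ξ‖ ^ 2 / ε) : ℝ) : ℂ) := by
      have h : conj Ξ * Ξ = ((‖Ξ‖ ^ 2 : ℝ) : ℂ) := by
        rw [mul_comm, Complex.mul_conj, Complex.normSq_eq_norm_sq]
      push_cast at h ⊢
      rw [← h]; field_simp
    rw [this, Complex.ofReal_re]
  have k2 : ‖-(conj Ξ) / (ε : ℂ)‖ ^ 2 = ‖Ξ‖ ^ 2 / ε ^ 2 := by
    rw [norm_div, norm_neg, RCLike.norm_conj, Complex.norm_real, Real.norm_eq_abs, abs_of_pos hεpos, div_pow]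
  have k3 : ‖-conj C‖ ^ 2 = ‖C‖ ^ 2 := by rw [norm_neg, RCLike.norm_conj]
  rw [k1, k2, k3] at key2
  have k4 : ‖Ξ‖ ^ 2 / ε ^ 2 * A1 ≤ ‖Ξ‖ ^ 2 / ε := by
    calc ‖Ξ‖ ^ 2 / ε ^ 2 * A1 ≤ ‖Ξ‖ ^ 2 / ε ^ 2 * ε := mul_le_mul_of_nonneg_left hA1ε (by positivity)
      _ = ‖Ξ‖ ^ 2 / ε := by field_simp
  have hA0ε : A0 = 1 - ε := by rw [hε]; ring
  have k5 : 0 ≤ ‖V‖ ^ 2 - 2 * (conj C * Φ).re + (1 - ε) * ‖C‖ ^ 2 - ‖Ξ‖ ^ 2 / ε := by
    have : (-conj C * Φ).re = -(conj C * Φ).re := by rw [neg_mul, Complex.neg_re]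
    rw [this, hA0ε] at key2
    linarith
  -- the target
  have hT : ∑ i, ∑ j, c i * conj (c j) * ((1 - φ (x i)) / (Real.sqrt ε : ℝ) * conj ((1 - φ (x j)) / (Real.sqrt ε : ℝ))
      * (1 - 2 * (((x i : Disc) : ℂ) * conj ((x j : Disc) : ℂ))) - 1 + F (x i) (x j))
      = (((‖C - Φ‖ ^ 2 / ε - ‖Ξ‖ ^ 2 / ε - ‖C‖ ^ 2 + ‖V‖ ^ 2 : ℝ)) : ℂ) := by
    have s1 : ∑ i, c i * (1 - φ (x i)) = C - Φ := by
      rw [hCdef, hΦ, ← Finset.sum_sub_distrib]
      apply Finset.sum_congr rfl; intro i _; ring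
    have s2 : ∑ i, c i * ((x i : Disc) : ℂ) * (1 - φ (x i)) = Ξ / t := by
      rw [hΞ, Finset.sum_div]
      apply Finset.sum_congr rfl; intro i _
      have ht' : (t : ℂ) ≠ 0 := by exact_mod_cast htpos.ne'
      rw [hχφ]; field_simp
    have sq : ((Real.sqrt ε : ℝ) : ℂ) * ((Real.sqrt ε : ℝ) : ℂ) = (ε : ℂ) := by exact_mod_cast hsε2
    have hsc : ((Real.sqrt ε : ℝ) : ℂ) ≠ 0 := by exact_mod_cast hsε.ne'
    have e1 : ∑ i, ∑ j, c i * conj (c j) * ((1 - φ (x i)) / (Real.sqrt ε : ℝ) * conj ((1 - φ (x j)) / (Real.sqrt ε : ℝ))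
      * (1 - 2 * (((x i : Disc) : ℂ) * conj ((x j : Disc) : ℂ))) - 1 + F (x i) (x j))
      = (∑ i, c i * (1 - φ (x i))) * conj (∑ i, c i * (1 - φ (x i))) / ε
        - 2 * ((∑ i, c i * ((x i : Disc) : ℂ) * (1 - φ (x i))) * conj (∑ i, c i * ((x i : Disc) : ℂ) * (1 - φ (x i)))) / ε
        - (∑ i, c i) * conj (∑ i, c i) + ∑ i, ∑ j, c i * conj (c j) * F (x i) (x j) := by
      rw [dsum, dsum, dsum, Finset.mul_sum, Finset.sum_div, Finset.sum_div,
        ← Finset.sum_sub_distrib, ← Finset.sum_sub_distrib, ← Finset.sum_add_distrib]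
      apply Finset.sum_congr rfl; intro i _
      rw [Finset.mul_sum, Finset.sum_div, Finset.sum_div,
        ← Finset.sum_sub_distrib, ← Finset.sum_sub_distrib, ← Finset.sum_add_distrib]
      apply Finset.sum_congr rfl; intro j _
      simp only [map_mul, map_div₀, map_sub, map_one, Complex.conj_ofReal]
      rw [← sq]
      field_simp
    rw [e1, s1, s2, ← hVV, Complex.mul_conj, Complex.mul_conj, Complex.mul_conj]
    simp only [Complex.normSq_eq_norm_sq]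
    have h5 : ‖Ξ / (t : ℂ)‖ ^ 2 = ‖Ξ‖ ^ 2 / 2 := by
      rw [norm_div, Complex.norm_real, Real.norm_eq_abs, abs_of_pos htpos, div_pow, ht2]
    rw [h5]
    push_cast
    ring
  show 0 ≤ ∑ i, ∑ j, c i * conj (c j) * ((1 - φ (x i)) / (Real.sqrt ε : ℝ) * conj ((1 - φ (x j)) / (Real.sqrt ε : ℝ))
      * (1 - 2 * (((x i : Disc) : ℂ) * conj ((x j : Disc) : ℂ))) - 1 + F (x i) (x j))
  rw [hT]
  have hfin : 0 ≤ ‖C - Φ‖ ^ 2 / ε - ‖Ξ‖ ^ 2 / ε - ‖C‖ ^ 2 + ‖V‖ ^ 2 := by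
    have h6 : ‖C - Φ‖ ^ 2 = ‖C‖ ^ 2 - 2 * (conj C * Φ).re + ‖Φ‖ ^ 2 := by
      rw [← Complex.normSq_eq_norm_sq, ← Complex.normSq_eq_norm_sq, ← Complex.normSq_eq_norm_sq]
      simp [Complex.normSq_apply]; ring
    have h7 : ‖Φ - (1 - ε : ℝ) * C‖ ^ 2 = ‖Φ‖ ^ 2 - 2 * (1 - ε) * (conj C * Φ).re + (1 - ε) ^ 2 * ‖C‖ ^ 2 := by
      rw [← Complex.normSq_eq_norm_sq, ← Complex.normSq_eq_norm_sq, ← Complex.normSq_eq_norm_sq]
      simp [Complex.normSq_apply]; ring
    have h8 : 0 ≤ ‖Φ - (1 - ε : ℝ) * C‖ ^ 2 / ε := by positivity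
    have h9 : ‖C - Φ‖ ^ 2 / ε - ‖Ξ‖ ^ 2 / ε - ‖C‖ ^ 2 + ‖V‖ ^ 2
        = (‖V‖ ^ 2 - 2 * (conj C * Φ).re + (1 - ε) * ‖C‖ ^ 2 - ‖Ξ‖ ^ 2 / ε) + ‖Φ - (1 - ε : ℝ) * C‖ ^ 2 / ε := by
      rw [h6, h7]; field_simp; ring
    rw [h9]; linarith
  exact_mod_cast hfin

lemma disc_sq (z : Disc) : ‖(z : ℂ)‖ ^ 2 < 1 / 2 := by
  have h1 := z.2
  have h2 := norm_nonneg (z : ℂ)
  have h3 : (1 / Real.sqrt 2) ^ 2 = 1 / 2 := by rw [div_pow, Real.sq_sqrt (by norm_num)]; norm_num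
  rw [← h3]
  exact pow_lt_pow_left₀ h1 h2 (by norm_num)

lemma zw_norm (z w : Disc) : ‖(z : ℂ) * conj (w : ℂ)‖ < 1 / 2 := by
  rw [norm_mul, RCLike.norm_conj]
  have h1 := disc_sq z
  have h2 := disc_sq w
  nlinarith [norm_nonneg (z : ℂ), norm_nonneg (w : ℂ), sq_nonneg (‖(z : ℂ)‖ - ‖(w : ℂ)‖)]

lemma one_sub_zw (z w : Disc) : 1 - (z : ℂ) * conj (w : ℂ) ≠ 0 := by
  intro h
  have h1 := zw_norm z w
  have : (z : ℂ) * conj (w : ℂ) = 1 := by linear_combination -h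
  rw [this] at h1
  norm_num at h1

lemma one_sub_2zw (z w : Disc) : 1 - 2 * ((z : ℂ) * conj (w : ℂ)) ≠ 0 := by
  intro h
  have h1 := zw_norm z w
  have : (z : ℂ) * conj (w : ℂ) = 1 / 2 := by linear_combination -h / 2
  rw [this] at h1
  norm_num at h1

lemma zz_re (z : Disc) : (z : ℂ) * conj (z : ℂ) = ((‖(z : ℂ)‖ ^ 2 : ℝ) : ℂ) := by
  rw [Complex.mul_conj, Complex.normSq_eq_norm_sq]

lemma kernel_2zw : IsKernel (fun z w : Disc => 2 * ((z : ℂ) * conj (w : ℂ))) := by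
  refine ((isKernel_const (X := Disc) 2 (by norm_num)).mul (isKernel_dyad (fun z : Disc => (z : ℂ)))).congr ?_
  intro z w; norm_num

lemma kernel_2zw_diag (z : Disc) : (2 * ((z : ℂ) * conj (z : ℂ))).re < 1 := by
  rw [zz_re]
  have := disc_sq z
  have e : (2 * ((‖(z : ℂ)‖ ^ 2 : ℝ) : ℂ)) = ((2 * ‖(z : ℂ)‖ ^ 2 : ℝ) : ℂ) := by push_cast; ring
  rw [e, Complex.ofReal_re]
  linarith

/-- the certificate `1/(1 - 2 z w̄)` -/
noncomputable def s0 (z w : Disc) : ℂ := 1 / (1 - 2 * ((z : ℂ) * conj (w : ℂ)))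

lemma s0_kernel : IsKernel s0 := kernel_2zw.geom kernel_2zw_diag

lemma s0_cert : IsCertificate bergman s0 := by
  refine ⟨⟨s0_kernel, fun z w => one_div_ne_zero (one_sub_2zw z w), fun _ => 1,
    fun z w => 2 * ((z : ℂ) * conj (w : ℂ)), fun _ => one_ne_zero, kernel_2zw, kernel_2zw_diag, ?_⟩, ?_⟩
  · intro z w; simp [s0]
  · refine ⟨fun z w => ((z : ℂ) ^ 2 * conj ((w : ℂ) ^ 2)) * (1 / (1 - (z : ℂ) * conj (w : ℂ)) * (1 / (1 - (z : ℂ) * conj (w : ℂ)))), ?_, ?_⟩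
    · have hd : IsKernel (fun z w : Disc => (z : ℂ) * conj (w : ℂ)) := isKernel_dyad (fun z : Disc => (z : ℂ))
      have hg := hd.geom (fun z => by
        rw [zz_re, Complex.ofReal_re]; linarith [disc_sq z])
      exact (isKernel_dyad (fun z : Disc => (z : ℂ) ^ 2)).mul (hg.mul hg)
    · intro z w
      have h1 := one_sub_zw z w
      have h2 := one_sub_2zw z w
      unfold bergman s0
      simp only [map_pow]
      rw [← mul_pow]
      generalize (z : ℂ) * conj (w : ℂ) = p at h1 h2 ⊢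
      have h3 : 1 - p * 2 ≠ 0 := by rw [mul_comm]; exact h2
      field_simp
      ring

theorem s0_min (t : Disc → Disc → ℂ) (ht : IsCertificate bergman t) :
    IsKernel (fun z w => t z w / s0 z w) := by
  obtain ⟨⟨htk, htne, δ, F, hδ, hF, hF1, htF⟩, h, hh, hth⟩ := ht
  set o : Disc := ⟨0, by simp⟩ with ho
  have ho0 : ((o : Disc) : ℂ) = 0 := rfl
  -- `h` is less than one on the diagonal
  have hh1 : ∀ z, (h z z).re < 1 := by
    intro z
    have h1 := hth z z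
    have h2 := htk.diag z
    have h3 : (t z z) = (((t z z).re : ℝ) : ℂ) := by apply Complex.ext <;> simp [h2.2]
    have h4 : (t z z).re ≠ 0 := by
      intro h5; apply htne z z; rw [h3, h5]; simp
    have h5 : 0 < (t z z).re := lt_of_le_of_ne h2.1 (Ne.symm h4)
    have h6 : bergman z z = ((1 / (1 - ‖(z : ℂ)‖ ^ 2) ^ 2 : ℝ) : ℂ) := by
      unfold bergman; rw [zz_re]; push_cast; rfl
    have h7 : (h z z) = (((h z z).re : ℝ) : ℂ) := by apply Complex.ext <;> simp [(hh.diag z).2]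
    rw [h6, h3, h7] at h1
    have h8 : 1 / (1 - ‖(z : ℂ)‖ ^ 2) ^ 2 = (1 - (h z z).re) * (t z z).re := by exact_mod_cast h1
    have h9 : 0 < 1 / (1 - ‖(z : ℂ)‖ ^ 2) ^ 2 := by
      have := disc_sq z
      have : 0 < 1 - ‖(z : ℂ)‖ ^ 2 := by linarith
      positivity
    rw [h8] at h9
    have h10 : 0 < 1 - (h z z).re := by
      by_contra hcon
      have : (1 - (h z z).re) * (t z z).re ≤ 0 := mul_nonpos_of_nonpos_of_nonneg (by linarith) h5.le
      linarith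
    linarith
  have hb0 : ∀ z, bergman z o = 1 := by intro z; simp [bergman, ho0]
  have hb0' : ∀ z, bergman o z = 1 := by intro z; simp [bergman, ho0]
  have hF0 := nrm_kernel hF hF1 o
  have hh0 := nrm_kernel hh hh1 o
  have hF01 := fun z => nrm_diag hF hF1 o z
  have hh01 := fun z => nrm_diag hh hh1 o z
  have eh : ∀ z w, 1 - h z w = bergman z w * (1 - F z w) / (δ z * conj (δ w)) := by
    intro z w
    have h1 := hth z w
    have h2 := htF z w
    have h3 := hF.one_sub_ne hF1 z w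
    have h4 := hδ z
    have h5 : conj (δ w) ≠ 0 := by simpa using hδ w
    rw [h1, h2]
    field_simp
  have hrel : ∀ z w : Disc, nrm F o z w = 1 - (1 - (z : ℂ) * conj (w : ℂ)) ^ 2 * (1 - nrm h o z w) := by
    intro z w
    unfold nrm
    rw [eh z w, eh o o, eh z o, eh o w, hb0, hb0, hb0']
    have h3 := hF.one_sub_ne hF1 z w
    have h3b := hF.one_sub_ne hF1 z o
    have h3c := hF.one_sub_ne hF1 o w
    have h3d := hF.one_sub_ne hF1 o o
    have h4 := hδ z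
    have h4b := hδ o
    have h5 : conj (δ w) ≠ 0 := by simpa using hδ w
    have h5b : conj (δ o) ≠ 0 := by simpa using hδ o
    have h6 := one_sub_zw z w
    unfold bergman
    field_simp
    ring
  obtain ⟨ψ, hψ⟩ := psi_exists (nrm F o) (nrm h o) hF0 hh0 hF01 hh01 hrel
  set G : Disc → Disc → ℂ := fun z w => ψ z * conj (ψ w) * (1 - 2 * ((z : ℂ) * conj (w : ℂ))) - 1 + nrm F o z w with hG
  have hψne : ∀ z, ψ z ≠ 0 := by
    intro z hz
    have h1 : 0 ≤ (G z z).re := (hψ.diag z).1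
    simp only [hG, hz] at h1
    have h2 := hF01 z
    simp at h1
    linarith
  -- T = G / (ψ ψ̄ (1 - 2 z w̄))
  have hT : IsKernel (fun z w => G z w * ((1 / ψ z) * conj (1 / ψ w)) * s0 z w) :=
    (hψ.mul (isKernel_dyad (fun z => 1 / ψ z))).mul s0_kernel
  have hTdiag : ∀ z, (G z z * ((1 / ψ z) * conj (1 / ψ z)) * s0 z z).re < 1 := by
    intro z
    have h1 : (nrm F o z z) = (((nrm F o z z).re : ℝ) : ℂ) := by
      apply Complex.ext <;> simp [(hF0.diag z).2]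
    have h2 := hψne z
    have h3 : conj (ψ z) ≠ 0 := by simpa using h2
    have h4 := one_sub_2zw z z
    have e : G z z * ((1 / ψ z) * conj (1 / ψ z)) * s0 z z
        = ((1 - (1 - (nrm F o z z).re) / (‖ψ z‖ ^ 2 * (1 - 2 * ‖(z : ℂ)‖ ^ 2)) : ℝ) : ℂ) := by
      have e1 : ψ z * conj (ψ z) = ((‖ψ z‖ ^ 2 : ℝ) : ℂ) := by
        rw [Complex.mul_conj, Complex.normSq_eq_norm_sq]
      have e2 : 1 - 2 * ((z : ℂ) * conj (z : ℂ)) = ((1 - 2 * ‖(z : ℂ)‖ ^ 2 : ℝ) : ℂ) := by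
        rw [zz_re]; push_cast; ring
      have e3 : G z z * ((1 / ψ z) * conj (1 / ψ z)) * s0 z z
          = 1 - (1 - nrm F o z z) / ((ψ z * conj (ψ z)) * (1 - 2 * ((z : ℂ) * conj (z : ℂ)))) := by
        simp only [hG, s0, map_div₀, map_one]
        generalize 1 - 2 * ((z : ℂ) * conj (z : ℂ)) = P at h4 ⊢
        field_simp
        ring
      rw [e3, e1, e2, h1]
      push_cast
      simp
    rw [e, Complex.ofReal_re]
    have h5 : 0 < ‖ψ z‖ ^ 2 * (1 - 2 * ‖(z : ℂ)‖ ^ 2) := by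
      have := disc_sq z
      have h6 : 0 < 1 - 2 * ‖(z : ℂ)‖ ^ 2 := by linarith
      have h7 : 0 < ‖ψ z‖ := norm_pos_iff.mpr h2
      positivity
    have h6 := hF01 z
    have : 0 < (1 - (nrm F o z z).re) / (‖ψ z‖ ^ 2 * (1 - 2 * ‖(z : ℂ)‖ ^ 2)) := div_pos (by linarith) h5
    linarith
  have hgeo := hT.geom hTdiag
  have hr : (F o o) = (((F o o).re : ℝ) : ℂ) := by apply Complex.ext <;> simp [(hF.diag o).2]
  have hc := isKernel_const (X := Disc) (1 - (F o o).re) (by linarith [hF1 o])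
  have hd := isKernel_dyad (fun z => δ z / (1 - F z o) / ψ z)
  refine ((hc.mul hd).mul hgeo).congr ?_
  intro z w
  have h2 := hψne z
  have h3 : conj (ψ w) ≠ 0 := by simpa using hψne w
  have h4 := one_sub_2zw z w
  have h5 := hF.one_sub_ne hF1 z w
  have h6 := hF.one_sub_ne hF1 z o
  have h7 := hF.one_sub_ne hF1 o w
  have h8 := hF.one_sub_ne hF1 o o
  have c1 : conj (F w o) = F o w := hF.herm w o
  have hden : 1 - G z w * ((1 / ψ z) * conj (1 / ψ w)) * s0 z w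
      = (1 - nrm F o z w) / (ψ z * conj (ψ w) * (1 - 2 * ((z : ℂ) * conj (w : ℂ)))) := by
    simp only [hG, s0, map_div₀, map_one]
    generalize 1 - 2 * ((z : ℂ) * conj (w : ℂ)) = P at h4 ⊢
    field_simp
    ring
  have hn : 1 - nrm F o z w = (1 - F z w) * (1 - F o o) / ((1 - F z o) * (1 - F o w)) := by
    unfold nrm; ring
  rw [hden, hn, htF z w]
  simp only [map_div₀, map_sub, map_one, c1, s0]
  push_cast
  rw [← hr]
  field_simp

/-- **Main result.** There is a minimum certificate for the Bergman kernel over the disc of radius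
`1/√2`. -/
theorem result : ∃ s, IsMinCertificate bergman s := ⟨s0, s0_cert, s0_min⟩

end Pool.Agent.Results.MP_232e98_an.MinimumCertificate
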